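import Pool.Agent.W622.BK.Stm

/-! Project BK (MP_7e1e73_al): part NZ, a nonzero form in `D_m` gives nonzero cohomology. -/

set_option autoImplicit false

namespace Pool.Agent.W300.BK

open Module Pool.Agent.W622.BK

universe u

section

variable {k : Type u} [Field k] {E : Type u} [AddCommGroup E] [Module k E]

theorem cur_apply {n : ℕ} (ω : G k E (n + 1)) (e : E) (v : Fin n → E) :
    (cur k E ω e) v = ω (Fin.cons e v) := rfl

/-- evaluation of forms -/
def evl {n : ℕ} (v : Fin n → E) : G k E n →ₗ[k] k where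
  toFun η := η v
  map_add' _ _ := rfl
  map_smul' _ _ := rfl

theorem cc_evl {n : ℕ} (ω : G k E (n + 2)) (v : Fin n → E) (e e' : E) :
    (cc k E ω).compr₂ (evl v) e e' = ω (Fin.cons e (Fin.cons e' v)) := rfl

theorem skew_of_alt (β : E →ₗ[k] E →ₗ[k] k) (h : ∀ e, β e e = 0) (e e' : E) :
    β e e' = - β e' e := by
  have h1 := h (e + e')
  simp only [map_add, LinearMap.add_apply, h, zero_add, add_zero] at h1
  linear_combination h1

/-- twice the sum over `p < q` of a symmetric function -/
theorem two_mul_lt {N : ℕ} (T : Fin N → Fin N → k) (hs : ∀ p q, T p q = T q p)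
    (h0 : ∀ p, T p p = 0) :
    2 * ∑ p, ∑ q, (if p < q then T p q else 0) = ∑ p, ∑ q, T p q := by
  have h1 : ∑ p, ∑ q, (if p < q then T p q else 0) = ∑ p, ∑ q, (if q < p then T p q else 0) := by
    rw [Finset.sum_comm]
    refine Finset.sum_congr rfl fun p _ => Finset.sum_congr rfl fun q _ => ?_
    rw [hs q p]
  rw [two_mul]
  nth_rewrite 2 [h1]
  rw [← Finset.sum_add_distrib]
  refine Finset.sum_congr rfl fun p _ => ?_
  rw [← Finset.sum_add_distrib]
  refine Finset.sum_congr rfl fun q _ => ?_
  rcases lt_trichotomy p q with h | h | h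
  · rw [if_pos h, if_neg (not_lt.2 h.le), add_zero]
  · subst h
    rw [if_neg (lt_irrefl _), h0, add_zero]
  · rw [if_neg (not_lt.2 h.le), if_pos h, zero_add]

end

section

variable {k : Type u} [Field k] {L : Type u} [LieRing L] [LieAlgebra k L]
variable {E : Type u} [AddCommGroup E] [Module k E] [FiniteDimensional k E]

theorem br_eq (j : (E →ₗ[k] k) →ₗ[k] L) (β : E →ₗ[k] E →ₗ[k] k) :
    Br j β = ∑ p, ∑ q, β (finBasis k E p) (finBasis k E q) •
      ⁅j ((finBasis k E).coord p), j ((finBasis k E).coord q)⁆ := by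
  unfold Br
  refine Finset.sum_congr rfl fun p _ => ?_
  have h : j (β (finBasis k E p)) = ∑ q, β (finBasis k E p) (finBasis k E q) •
      j ((finBasis k E).coord q) := by
    conv_lhs => rw [← (finBasis k E).sum_dual_apply_smul_coord (β (finBasis k E p))]
    rw [map_sum]
    refine Finset.sum_congr rfl fun q _ => ?_
    rw [map_smul]
  rw [h, lie_sum]
  refine Finset.sum_congr rfl fun q _ => ?_
  rw [lie_smul]

end

theorem t_NZ : S_NZ.{u} := by
  intro hALT hA hB hDALT k _ L _ _ E _ _ _ j pr h2 hpr hbr n hne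
  obtain ⟨ω, hω, hω0⟩ := Submodule.exists_mem_ne_zero_of_ne_bot hne
  have hAlt : Alt (Rj j) := fun β hβ e => hβ.1 e
  obtain ⟨ω', hω'⟩ := hDALT hALT k E (Rj j) ⊤ (n + 2) ω hAlt hω
  obtain ⟨u, hu⟩ : ∃ u, ω u ≠ 0 := by
    by_contra hcon
    push Not at hcon
    exact hω0 (MultilinearMap.ext hcon)
  let φ : L →ₗ[k] (Fin (n + 2) → k) := LinearMap.pi (fun t => (LinearMap.applyₗ (u t)) ∘ₗ pr)
  have hφ : ∀ y t, φ y t = pr y (u t) := fun y t => rfl
  let F' : L [⋀^Fin (n + 2)]→ₗ[k] k := (Matrix.detRowAlternating).compLinearMap φ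
  have hF' : ∀ x, F' x = (Matrix.of fun s t : Fin (n + 2) => pr (x s) (u t)).det := fun x => rfl
  have hd : ∀ x, dCE k L F' x = 0 := by
    intro x
    unfold dCE
    refine Finset.sum_eq_zero fun i _ => Finset.sum_eq_zero fun jj _ => ?_
    split_ifs with h
    · have h0 : F' (Fin.cons ⁅x i, x jj.succ⁆
          (fun t : Fin (n + 1) => x (i.succAbove (jj.succAbove t)))) = 0 := by
        rw [hF']
        apply Matrix.det_eq_zero_of_row_eq_zero 0
        intro t
        rw [Matrix.of_apply, Fin.cons_zero, hbr, LinearMap.zero_apply]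
      rw [h0, mul_zero]
    · rfl
  have hcoc : (fun x => F' x) ∈ cocycles k L (n + 2) := ⟨F', fun x => rfl, hd⟩
  rw [Submodule.Quotient.nontrivial_iff]
  intro htop
  have hmem : (⟨fun x => F' x, hcoc⟩ : cocycles k L (n + 2)) ∈
      (coboundaries k L (n + 2)).comap (cocycles k L (n + 2)).subtype := by
    rw [htop]; exact Submodule.mem_top
  rw [Submodule.mem_comap] at hmem
  obtain ⟨g, hg⟩ := hmem
  have hg' : ∀ x, F' x = dCE k L g x := hg
  -- the pairing
  let b := finBasis k E
  let N := finrank k E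
  have hsum1 : ∑ I : Fin (n + 2) ↪o Fin N, ω' (fun t => b (I t)) *
      F' (fun s => j (b.coord (I s))) = ω' u := by
    rw [hB k E N (n + 2) b ω' u]
    refine Finset.sum_congr rfl fun I _ => ?_
    rw [hF']
    simp only [hpr]
  let c : (Fin (n + 2) → Fin N) → k := fun v => ω' (fun t => b (v t))
  let h : Fin N → Fin N → (Fin n → Fin N) → k := fun p q J =>
    (g.curryLeft ⁅j (b.coord p), j (b.coord q)⁆) (fun t => j (b.coord (J t)))
  have hh : ∀ p q J, h p q J =
      g (Fin.cons ⁅j (b.coord p), j (b.coord q)⁆ (fun t => j (b.coord (J t)))) :=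
    fun p q J => rfl
  have hsum2 : ∑ I : Fin (n + 2) ↪o Fin N, ω' (fun t => b (I t)) *
      F' (fun s => j (b.coord (I s))) =
      ∑ I : Fin (n + 2) ↪o Fin N, ∑ i : Fin (n + 2), ∑ jj : Fin (n + 1),
        (if (i : ℕ) ≤ (jj : ℕ) then
          c I * ((-1 : k) ^ ((i : ℕ) + (jj : ℕ) + 1) *
            h (I i) (I jj.succ) (fun t : Fin n => I (i.succAbove (jj.succAbove t))))
        else 0) := by
    refine Finset.sum_congr rfl fun I _ => ?_
    rw [hg']
    unfold dCE
    rw [Finset.mul_sum]
    refine Finset.sum_congr rfl fun i _ => ?_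
    rw [Finset.mul_sum]
    refine Finset.sum_congr rfl fun jj _ => ?_
    rw [mul_ite, mul_zero]
    rfl
  have hnza := hA k N n c h
    (fun v hv => ω'.map_eq_zero_of_not_injective _
      (fun hi => hv (Function.Injective.of_comp (f := b) hi)))
    (fun v σ => by
      have := ω'.map_perm (fun t => b (v t)) σ
      rw [Units.smul_def, zsmul_eq_mul] at this
      exact this)
    (fun p q J => by
      show (g.curryLeft ⁅j (b.coord q), j (b.coord p)⁆) _ = _
      rw [← lie_skew, map_neg, AlternatingMap.neg_apply])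
    (fun p q J σ => by
      have := (g.curryLeft ⁅j (b.coord p), j (b.coord q)⁆).map_perm
        (fun t => j (b.coord (J t))) σ
      rw [Units.smul_def, zsmul_eq_mul] at this
      exact this)
  rw [← hsum2, hsum1] at hnza
  have hzero : ∀ J : Fin n ↪o Fin N, ∑ p : Fin N, ∑ q : Fin N,
      (if p < q then c (Fin.cons p (Fin.cons q J : Fin (n + 1) → Fin N)) * h p q J else 0) = 0 := by
    intro J
    let β : E →ₗ[k] E →ₗ[k] k := (cc k E ω).compr₂ (evl fun t => b (J t))
    have hβ : β ∈ Rj j := hω.2 _
    have hc : ∀ p q, c (Fin.cons p (Fin.cons q J : Fin (n + 1) → Fin N)) = β (b p) (b q) := by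
      intro p q
      show ω' _ = ω (Fin.cons (b p) (Fin.cons (b q) fun t => b (J t)))
      rw [hω']
      congr 1
      funext t
      refine Fin.cases rfl (fun t => ?_) t
      refine Fin.cases rfl (fun t => ?_) t
      rfl
    let T : Fin N → Fin N → k := fun p q => β (b p) (b q) * h p q J
    have hTs : ∀ p q, T p q = T q p := by
      intro p q
      show β (b p) (b q) * h p q J = β (b q) (b p) * h q p J
      have h3 : h q p J = - h p q J := by
        show (g.curryLeft ⁅j (b.coord q), j (b.coord p)⁆) _ = _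
        rw [← lie_skew, map_neg, AlternatingMap.neg_apply]
      rw [h3, skew_of_alt β hβ.1 (b p) (b q)]
      ring
    have hT0 : ∀ p, T p p = 0 := by
      intro p
      show β (b p) (b p) * h p p J = 0
      rw [hβ.1, zero_mul]
    have hT : ∑ p, ∑ q, T p q = 0 := by
      let l : L →ₗ[k] k :=
        { toFun := fun z => (g.curryLeft z) (fun t => j (b.coord (J t)))
          map_add' := fun x y => by rw [map_add, AlternatingMap.add_apply]
          map_smul' := fun r x => by rw [map_smul, AlternatingMap.smul_apply, RingHom.id_apply] }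
      have h4 : l (Br j β) = 0 := by rw [hβ.2, map_zero]
      rw [br_eq, map_sum] at h4
      rw [← h4]
      refine Finset.sum_congr rfl fun p _ => ?_
      rw [map_sum]
      refine Finset.sum_congr rfl fun q _ => ?_
      rw [map_smul, smul_eq_mul]
      rfl
    have h5 := two_mul_lt T hTs hT0
    rw [hT] at h5
    have h6 := (mul_eq_zero.1 h5).resolve_left h2
    refine Eq.trans ?_ h6
    refine Finset.sum_congr rfl fun p _ => Finset.sum_congr rfl fun q _ => ?_
    rw [hc]
  rw [Finset.sum_eq_zero fun J _ => hzero J, neg_zero] at hnza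
  exact hu (by rw [← hω']; exact hnza)

end Pool.Agent.W300.BK
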